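import Mathlib

/-! Many different values of `2 ^ x + 2 ^ y + 2 ^ z`. -/

set_option autoImplicit false

open Finset

namespace H186.TP

/-- the triples (largest, second, last exponent) that can give the value `N` -/
def cand (N : ℕ) : Finset (ℕ × ℕ × ℕ) :=
  (Finset.range 2).biUnion fun i => (Finset.range 2).image fun j =>
    (Nat.log 2 N - i, Nat.log 2 (N - 2 ^ (Nat.log 2 N - i)) - j,
      Nat.log 2 (N - 2 ^ (Nat.log 2 N - i) - 2 ^ (Nat.log 2 (N - 2 ^ (Nat.log 2 N - i)) - j)))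

theorem cand_card (N : ℕ) : #(cand N) ≤ 4 := by
  unfold cand
  refine card_biUnion_le.trans ?_
  calc (∑ i ∈ Finset.range 2, #((Finset.range 2).image fun j =>
    (Nat.log 2 N - i, Nat.log 2 (N - 2 ^ (Nat.log 2 N - i)) - j,
      Nat.log 2 (N - 2 ^ (Nat.log 2 N - i) - 2 ^ (Nat.log 2 (N - 2 ^ (Nat.log 2 N - i)) - j)))))
      ≤ ∑ _i ∈ Finset.range 2, 2 := by
        apply Finset.sum_le_sum
        intro i _
        exact card_image_le.trans (by simp)
    _ = 4 := by simp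

/-- the largest of at most three powers -/
theorem log_max (M a : ℕ) (h1 : 2 ^ a ≤ M) (h2 : M ≤ 3 * 2 ^ a) :
    ∃ i ∈ Finset.range 2, a = Nat.log 2 M - i := by
  have h0 : 0 < 2 ^ a := Nat.two_pow_pos a
  have hM : M ≠ 0 := by omega
  have e1 : a ≤ Nat.log 2 M := Nat.le_log_of_pow_le (by norm_num) h1
  have e2 : Nat.log 2 M < a + 2 := by
    apply Nat.log_lt_of_lt_pow hM
    rw [pow_add]
    omega
  rcases Nat.lt_or_ge a (Nat.log 2 M) with h | h
  · exact ⟨1, by simp, by omega⟩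
  · exact ⟨0, by simp, by omega⟩

theorem mem_cand (N a b c : ℕ) (hab : b ≤ a) (hbc : c ≤ b) (h : 2 ^ a + 2 ^ b + 2 ^ c = N) :
    (a, b, c) ∈ cand N := by
  have hb : 2 ^ b ≤ 2 ^ a := Nat.pow_le_pow_right (by norm_num) hab
  have hc : 2 ^ c ≤ 2 ^ b := Nat.pow_le_pow_right (by norm_num) hbc
  have hc0 : 0 < 2 ^ c := Nat.two_pow_pos c
  obtain ⟨i, hi, hai⟩ := log_max N a (by omega) (by omega)
  obtain ⟨j, hj, hbj⟩ := log_max (N - 2 ^ a) b (by omega) (by omega)
  unfold cand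
  rw [mem_biUnion]
  refine ⟨i, hi, ?_⟩
  rw [mem_image]
  refine ⟨j, hj, ?_⟩
  rw [← hai, ← hbj]
  have e : N - 2 ^ a - 2 ^ b = 2 ^ c := by omega
  rw [e, Nat.log_pow (by norm_num)]

/-- the fibres of `(x, y, z) ↦ 2 ^ x + 2 ^ y + 2 ^ z` -/
theorem three_fibre (P : Finset (ℕ × ℕ × ℕ)) (N : ℕ) :
    #(P.filter fun v => 2 ^ v.1 + 2 ^ v.2.1 + 2 ^ v.2.2 = N) ≤ 24 := by
  have h1 : (P.filter fun v => 2 ^ v.1 + 2 ^ v.2.1 + 2 ^ v.2.2 = N) ⊆
      (((cand N ∪ (cand N).image fun v => (v.1, v.2.2, v.2.1)) ∪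
        ((cand N).image (fun v => (v.2.1, v.1, v.2.2)) ∪
          (cand N).image fun v => (v.2.2, v.1, v.2.1))) ∪
        ((cand N).image (fun v => (v.2.1, v.2.2, v.1)) ∪
          (cand N).image fun v => (v.2.2, v.2.1, v.1))) := by
    rintro ⟨x, y, z⟩ hv
    rw [mem_filter] at hv
    have h : 2 ^ x + 2 ^ y + 2 ^ z = N := hv.2
    simp only [mem_union, mem_image]
    rcases le_total x y with hxy | hxy
    · rcases le_total y z with hyz | hyz
      · -- x ≤ y ≤ z
        exact Or.inr (Or.inr ⟨(z, y, x), mem_cand N z y x hyz hxy (by omega), rfl⟩)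
      · rcases le_total x z with hxz | hxz
        · -- x ≤ z ≤ y
          exact Or.inl (Or.inr (Or.inr ⟨(y, z, x), mem_cand N y z x hyz hxz (by omega), rfl⟩))
        · -- z ≤ x ≤ y
          exact Or.inl (Or.inr (Or.inl ⟨(y, x, z), mem_cand N y x z hxy hxz (by omega), rfl⟩))
    · rcases le_total x z with hxz | hxz
      · -- y ≤ x ≤ z
        exact Or.inr (Or.inl ⟨(z, x, y), mem_cand N z x y hxz hxy (by omega), rfl⟩)
      · rcases le_total y z with hyz | hyz
        · -- y ≤ z ≤ x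
          exact Or.inl (Or.inl (Or.inr ⟨(x, z, y), mem_cand N x z y hxz hyz (by omega), rfl⟩))
        · -- z ≤ y ≤ x
          exact Or.inl (Or.inl (Or.inl (mem_cand N x y z hxy hyz (by omega))))
  have hc := cand_card N
  refine (card_le_card h1).trans ?_
  refine (card_union_le _ _).trans ?_
  have a1 := card_union_le (cand N ∪ (cand N).image fun v => (v.1, v.2.2, v.2.1))
    ((cand N).image (fun v => (v.2.1, v.1, v.2.2)) ∪ (cand N).image fun v => (v.2.2, v.1, v.2.1))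
  have a2 := card_union_le (cand N) ((cand N).image fun v => (v.1, v.2.2, v.2.1))
  have a3 := card_union_le ((cand N).image fun v => (v.2.1, v.1, v.2.2))
    ((cand N).image fun v => (v.2.2, v.1, v.2.1))
  have a4 := card_union_le ((cand N).image fun v => (v.2.1, v.2.2, v.1))
    ((cand N).image fun v => (v.2.2, v.2.1, v.1))
  have b1 : #((cand N).image fun v => (v.1, v.2.2, v.2.1)) ≤ #(cand N) := card_image_le
  have b2 : #((cand N).image fun v => (v.2.1, v.1, v.2.2)) ≤ #(cand N) := card_image_le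
  have b3 : #((cand N).image fun v => (v.2.2, v.1, v.2.1)) ≤ #(cand N) := card_image_le
  have b4 : #((cand N).image fun v => (v.2.1, v.2.2, v.1)) ≤ #(cand N) := card_image_le
  have b5 : #((cand N).image fun v => (v.2.2, v.2.1, v.1)) ≤ #(cand N) := card_image_le
  omega

/-- many different values -/
theorem many_values (n : ℕ) (Q : Finset (ℕ × ℕ × ℕ × ℕ))
    (hQ : ∀ v ∈ Q, n = v.1 ^ 2 + v.2.1 ^ 2 + v.2.2.1 ^ 2 + 4 * v.2.2.2 ^ 2) :
    #Q ≤ 24 * #(Q.image fun v => 2 ^ v.1 + 2 ^ v.2.1 + 2 ^ v.2.2.1) := by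
  classical
  have h1 : #Q = #(Q.image fun v => (v.1, v.2.1, v.2.2.1)) := by
    rw [card_image_of_injOn]
    rintro ⟨x, y, z, w⟩ hv ⟨x', y', z', w'⟩ hv' h
    have e := hQ _ hv
    have e' := hQ _ hv'
    simp only [Prod.mk.injEq] at h e e' ⊢
    obtain ⟨rfl, rfl, rfl⟩ := h
    refine ⟨rfl, rfl, rfl, ?_⟩
    have e3 : w ^ 2 = w' ^ 2 := by omega
    exact Nat.pow_left_injective (by norm_num : (2 : ℕ) ≠ 0) e3
  have h3 := card_le_mul_card_image (s := Q.image fun v => (v.1, v.2.1, v.2.2.1))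
    (f := fun v => 2 ^ v.1 + 2 ^ v.2.1 + 2 ^ v.2.2) 24 (fun N _ => three_fibre _ N)
  rw [image_image] at h3
  rw [h1]
  exact h3

end H186.TP
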